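import Pool.Agent.H65.AP.Targets

/-!
# Row FAX: complete families remain complete when profiles are added
-/

set_option autoImplicit false

open MeasureTheory Set Filter Topology Metric
open scoped ENNReal NNReal ContDiff RealInnerProductSpace

namespace Pool.Agent.H66.AP

open Pool.Agent.H94.IC Pool.Agent.H94.AC Pool.Agent.H92.CK Pool.Agent.H65.AP

theorem pf_FAX : T_FAX := by
  intro N M Ω σ ν ψ χ hF hχ
  refine ⟨?_, ?_, ?_, ?_⟩
  · intro i
    refine Fin.addCases (fun j => ?_) (fun j => ?_) i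
    · rw [Fin.append_left]
      exact hF.prof j
    · rw [Fin.append_right]
      exact hχ j
  · obtain ⟨n, hn, hb⟩ := hF.bar
    refine ⟨n, hn, fun S h τ hS hSΩ hh hsol ε hε => ?_⟩
    obtain ⟨s, hs, hx⟩ := hb S (fun i => h (Fin.castAdd M i)) (fun i => τ (Fin.castAdd M i)) hS hSΩ
      (fun i => hh _) (fun i => by
        have := hsol (Fin.castAdd M i)
        rwa [Fin.append_left] at this) ε hε
    refine ⟨s, hs, fun x h1 h2 => ?_⟩
    obtain ⟨r, hr⟩ := hx x h1 h2
    exact ⟨r, fun ⟨v, hv, hv2⟩ => hr ⟨v, hv, fun i => hv2 _⟩⟩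
  · obtain ⟨i, hi⟩ := hF.special
    exact ⟨Fin.castAdd M i, by rw [Fin.append_left, hi]⟩
  · intro k
    obtain ⟨i, hi⟩ := hF.nor k
    exact ⟨Fin.castAdd M i, by rw [Fin.append_left, hi]⟩

end Pool.Agent.H66.AP
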