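import Pool.Agent.H65.AP.Targets

/-!
# Row LAY: points near the boundary are joined to the outside
-/

set_option autoImplicit false

open MeasureTheory Set Filter Topology Metric
open scoped ENNReal NNReal ContDiff RealInnerProductSpace

namespace Pool.Agent.H66.AP

open Pool.Agent.H94.IC Pool.Agent.H94.AC Pool.Agent.H92.CK Pool.Agent.H65.AP

theorem pf_LAY (hXCK : T_XCK) : T_LAY := by
  intro Ω S r r' s x hΩ hS hr' hs hrs hfar hx hxs
  obtain ⟨y0, hy0⟩ := hS
  have hne : (frontier Ω).Nonempty := by
    by_contra h
    rw [not_nonempty_iff_eq_empty] at h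
    have h1 := hfar y0 hy0
    rw [h, infDist_empty] at h1
    linarith
  have hcomp : IsCompact (frontier Ω) :=
    Metric.isCompact_of_isClosed_isBounded isClosed_frontier
      (hΩ.bdd.closure.subset frontier_subset_closure)
  obtain ⟨q, hq, hqx⟩ := hcomp.exists_infDist_eq_dist hne x
  obtain ⟨c, s1, hc, -, hs1, hext, -⟩ := hXCK Ω hΩ
  have he : 0 < (r - r' - s) / 2 := by linarith
  have hball : ball q (s + (r - r' - s) / 2) ⊆ {y | r' < infDist y S} := by
    intro z hz
    have hz' : dist z q < s + (r - r' - s) / 2 := hz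
    have h1 : r - (s + (r - r' - s) / 2) ≤ infDist z S := by
      rw [le_infDist ⟨y0, hy0⟩]
      intro y hy
      have h2 := hfar y hy
      have h3 : infDist y (frontier Ω) ≤ dist y q := infDist_le_dist_of_mem hq
      have h4 : dist y q ≤ dist y z + dist z q := dist_triangle _ _ _
      rw [dist_comm z y]
      linarith
    show r' < infDist z S
    linarith
  have hxb : x ∈ ball q (s + (r - r' - s) / 2) := by
    rw [mem_ball, ← hqx]
    linarith
  have hsub : ball q (s + (r - r' - s) / 2) ⊆ connectedComponentIn {y | r' < infDist y S} x :=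
    (convex_ball q _).isPreconnected.subset_connectedComponentIn hxb hball
  refine ⟨hball hxb, ?_⟩
  have ht : min s1 (s / 2) ∈ Ioc 0 s1 := ⟨lt_min hs1 (by linarith), min_le_left _ _⟩
  obtain ⟨p, hp, hp2⟩ := hext q hq _ ht
  refine ⟨p, hsub ?_, fun hpc => ?_⟩
  · rw [mem_ball]
    have := min_le_right s1 (s / 2)
    linarith
  · have h1 := hp2 p hpc
    rw [dist_self] at h1
    have h2 : 0 < c * min s1 (s / 2) := mul_pos hc ht.1
    linarith

end Pool.Agent.H66.AP
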